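import Mathlib
import Pool.Agent.Helper781.OPN.Euler
import Pool.Agent.Helper781.OPN.D3
import Pool.Agent.Helper781.OPN.D5
import Pool.Agent.Helper781.OPN.D7
import Pool.Agent.Helper781.OPN.D11
import Pool.Agent.Helper781.OPN.D13
import Pool.Agent.Helper781.OPN.D17
import Pool.Agent.Helper781.OPN.D19
import Pool.Agent.Helper781.OPN.D23
import Pool.Agent.Helper781.OPN.D29
import Pool.Agent.Helper781.OPN.D31
import Pool.Agent.Helper781.OPN.D37
import Pool.Agent.Helper781.OPN.D41
import Pool.Agent.Helper781.OPN.D43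
import Pool.Agent.Helper781.OPN.D47
import Pool.Agent.Helper781.OPN.D53
import Pool.Agent.Helper781.OPN.D59
import Pool.Agent.Helper781.OPN.D61
import Pool.Agent.Helper781.OPN.D67
import Pool.Agent.Helper781.OPN.D71
import Pool.Agent.Helper781.OPN.D73
import Pool.Agent.Helper781.OPN.D79
import Pool.Agent.Helper781.OPN.D83
import Pool.Agent.Helper781.OPN.D89
import Pool.Agent.Helper781.OPN.D97
import Pool.Agent.Helper781.OPN.D101
import Pool.Agent.Helper781.OPN.D103
import Pool.Agent.Helper781.OPN.D107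
import Pool.Agent.Helper781.OPN.D109
import Pool.Agent.Helper781.OPN.D113
import Pool.Agent.Helper781.OPN.D127
import Pool.Agent.Helper781.OPN.D131
import Pool.Agent.Helper781.OPN.D137
import Pool.Agent.Helper781.OPN.D139
import Pool.Agent.Helper781.OPN.D149
import Pool.Agent.Helper781.OPN.D151
import Pool.Agent.Helper781.OPN.D157
import Pool.Agent.Helper781.OPN.D163
import Pool.Agent.Helper781.OPN.D167
import Pool.Agent.Helper781.OPN.D173
import Pool.Agent.Helper781.OPN.D181
import Pool.Agent.Helper781.OPN.D193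
import Pool.Agent.Helper781.OPN.D197
import Pool.Agent.Helper781.OPN.D199

set_option autoImplicit false

/-!
# A common prime factor of the exponents increased by one

Let `N` be an odd perfect number and `p` its prime factor with an odd exponent.  If a prime
`r ≠ p`, `r ≤ 199`, different from 179 and 191, divides `v_q(N) + 1` for all the prime factors
`q ≠ p` of `N`, then `r ^ r` divides `N`, and `r ^ 201` divides `N` if `r ≤ 107`.  If all these
exponents are equal to `2 β`, then `β > 100` or `2 β + 1` is one of 179 and 191.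
-/

namespace Pool.Agent.Results.MP_f02ea4_nt.CommonPrimeFactor
open Pool.Agent.Helper781.OPN

lemma prime_cases {r : ℕ} (hr : r.Prime) (h : r ≤ 199) (h179 : r ≠ 179) (h191 : r ≠ 191) :
    r = 2 ∨ r = 3 ∨ r = 5 ∨ r = 7 ∨ r = 11 ∨ r = 13 ∨ r = 17 ∨ r = 19 ∨ r = 23 ∨ r = 29 ∨ r = 31
    ∨ r = 37 ∨ r = 41 ∨ r = 43 ∨ r = 47 ∨ r = 53 ∨ r = 59 ∨ r = 61 ∨ r = 67 ∨ r = 71 ∨ r = 73 ∨ r
    = 79 ∨ r = 83 ∨ r = 89 ∨ r = 97 ∨ r = 101 ∨ r = 103 ∨ r = 107 ∨ r = 109 ∨ r = 113 ∨ r = 127 ∨
    r = 131 ∨ r = 137 ∨ r = 139 ∨ r = 149 ∨ r = 151 ∨ r = 157 ∨ r = 163 ∨ r = 167 ∨ r = 173 ∨ r =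
    181 ∨ r = 193 ∨ r = 197 ∨ r = 199 := by
  interval_cases r <;>
    first | (exfalso; revert hr; norm_num; done) | omega

variable {p α : ℕ} {e : ℕ → ℕ} {Q : Finset ℕ}

lemma ne_two (H : World p α e Q) (h : ∀ q ∈ Q, 2 ∣ e q + 1) : False := by
  obtain ⟨q, hq⟩ := H.Q_nonempty
  obtain ⟨k, hk⟩ := H.he q hq
  have := h q hq
  omega

/-- the bound for the exponent of the common prime factor -/
lemma bound (H : World p α e Q) {r : ℕ} (hr : r.Prime) (hrR : r ≤ 199) (h179 : r ≠ 179) (h191 : r ≠ 191)
    (h : ∀ q ∈ Q, r ∣ e q + 1) (hrp : r ≠ p) : (if r ≤ 107 then 201 else r) ≤ e r := by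
  rcases prime_cases hr hrR h179 h191 with
    rfl | rfl | rfl | rfl | rfl | rfl | rfl | rfl | rfl | rfl | rfl | rfl | rfl | rfl | rfl | rfl
    | rfl | rfl | rfl | rfl | rfl | rfl | rfl | rfl | rfl | rfl | rfl | rfl | rfl | rfl | rfl |
    rfl | rfl | rfl | rfl | rfl | rfl | rfl | rfl | rfl | rfl | rfl | rfl | rfl
  · exact absurd (ne_two H h) (fun h => h)
  · exact D3.bound H h hrp
  · exact D5.bound H h hrp
  · exact D7.bound H h hrp
  · exact D11.bound H h hrp
  · exact D13.bound H h hrp
  · exact D17.bound H h hrp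
  · exact D19.bound H h hrp
  · exact D23.bound H h hrp
  · exact D29.bound H h hrp
  · exact D31.bound H h hrp
  · exact D37.bound H h hrp
  · exact D41.bound H h hrp
  · exact D43.bound H h hrp
  · exact D47.bound H h hrp
  · exact D53.bound H h hrp
  · exact D59.bound H h hrp
  · exact D61.bound H h hrp
  · exact D67.bound H h hrp
  · exact D71.bound H h hrp
  · exact D73.bound H h hrp
  · exact D79.bound H h hrp
  · exact D83.bound H h hrp
  · exact D89.bound H h hrp
  · exact D97.bound H h hrp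
  · exact D101.bound H h hrp
  · exact D103.bound H h hrp
  · exact D107.bound H h hrp
  · exact D109.bound H h hrp
  · exact D113.bound H h hrp
  · exact D127.bound H h hrp
  · exact D131.bound H h hrp
  · exact D137.bound H h hrp
  · exact D139.bound H h hrp
  · exact D149.bound H h hrp
  · exact D151.bound H h hrp
  · exact D157.bound H h hrp
  · exact D163.bound H h hrp
  · exact D167.bound H h hrp
  · exact D173.bound H h hrp
  · exact D181.bound H h hrp
  · exact D193.bound H h hrp
  · exact D197.bound H h hrp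
  · exact D199.bound H h hrp

/-- equal exponents -/
lemma equal {β : ℕ} (H : World p α (fun _ => 2 * β) Q) :
    100 < β ∨ 2 * β + 1 = 179 ∨ 2 * β + 1 = 191 := by
  by_contra hcon
  push Not at hcon
  obtain ⟨r, hr, ⟨k, hk⟩, hrp⟩ := H.exists_prime
  have hr2 := hr.two_le
  have hk0 : k ≠ 0 := by rintro rfl; omega
  have hrle : r ≤ 2 * β + 1 := by
    rw [hk]; exact Nat.le_mul_of_pos_right _ (by omega)
  have hr201 : r ≠ 201 := by rintro rfl; revert hr; norm_num
  have hr200 : r ≠ 200 := by rintro rfl; revert hr; norm_num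
  have hbig : 108 ≤ r → k = 1 := by
    intro h108
    by_contra hk1
    have h2 : 2 ≤ k := by omega
    have h3 : r * 2 ≤ r * k := Nat.mul_le_mul_left r h2
    omega
  have key : ∀ s : ℕ, 108 ≤ s → r = s → 2 * β + 1 = s := by
    intro s hs hrs
    rw [hk, hbig (by omega), mul_one, hrs]
  have n179 : r ≠ 179 := fun h => by have := key 179 (by norm_num) h; omega
  have n191 : r ≠ 191 := fun h => by have := key 191 (by norm_num) h; omega
  have h1 : (if r ≤ 107 then 201 else r) ≤ 2 * β :=
    bound H hr (by omega) n179 n191 (fun _ _ => ⟨k, hk⟩) hrp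
  split_ifs at h1 with h107
  · omega
  · have h2 := hbig (by omega)
    rw [h2, mul_one] at hk
    omega

/-- **Main theorem.**  Let `N` be an odd perfect number.
(1) If `r ≤ 199` is a prime different from 179 and 191, its exponent in `N` is even (possibly `0`),
and `r` divides `v_q(N) + 1` for every prime factor `q` of `N` with an even exponent `v_q(N)`, then
`v_r(N) ≥ r`, and `v_r(N) ≥ 201` if `r ≤ 107`.
(2) If all the even exponents `v_q(N)`, `q ∣ N`, are equal to `2 β`, then `β > 100` or `2 β + 1` is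
one of 179 and 191. -/
theorem result (N : ℕ) (hodd : Odd N) (hperf : N.Perfect) :
    (∀ r : ℕ, r.Prime → r ≤ 199 → r ≠ 179 → r ≠ 191 → Even (N.factorization r) →
      (∀ q ∈ N.primeFactors, Even (N.factorization q) → r ∣ N.factorization q + 1) →
      r ≤ N.factorization r ∧ (r ≤ 107 → 201 ≤ N.factorization r)) ∧
    (∀ β : ℕ, (∀ q ∈ N.primeFactors, Even (N.factorization q) → N.factorization q = 2 * β) →
      100 < β ∨ 2 * β + 1 = 179 ∨ 2 * β + 1 = 191) := by
  obtain ⟨p, hp, hpo, H⟩ := exists_world hodd hperf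
  constructor
  · intro r hr hr2 h179 h191 hre h
    have hrp : r ≠ p := by
      rintro rfl
      exact (Nat.not_even_iff_odd.2 hpo) hre
    have h1 := bound H hr hr2 h179 h191 (fun q hq => h q (Finset.mem_of_mem_erase hq)
      (H.he q hq)) hrp
    split_ifs at h1 with h107
    · exact ⟨by omega, fun _ => h1⟩
    · exact ⟨h1, fun h => absurd h h107⟩
  · intro β h
    exact equal (H.equal (fun q hq => h q (Finset.mem_of_mem_erase hq) (H.he q hq)))

end Pool.Agent.Results.MP_f02ea4_nt.CommonPrimeFactor
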