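import Pool.Agent.H628_OPN.Main

/-!
# The largest prime factor of an odd perfect number `N` is `o(N ^ (1/3))`

Known: `P < (3 N) ^ (1/3)` for the largest prime factor `P` (Acquaah, Konyagin 2012). Here: for every
`C` only finitely many odd perfect numbers `N` have a prime factor `P` with `N ≤ C P ^ 3`.

Outline. Let `N ≤ C P ^ 3` and `P ≥ 2 C`. Then `P` divides `N` exactly once, and there is a prime power
`q ^ (2 b)` exactly dividing `N` with `σ(q ^ (2 b)) = P k`. Put `N = P q ^ (2 b) A`, `σ(A) = q ^ h B` with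
`q ∤ B`, `P + 1 = q ^ f M`, `q ∤ M`. Then `2 A = M k B`, `f + h = 2 b` and `k B ≤ 6 C`. For each
component `r ^ e` of `A` one has `σ(r ^ e) = q ^ c β` with `∏ β = B`, `∑ c = h` (`Cfg`).

* `q` bounded: all prime factors of `σ(r ^ e)` are bounded; by the theorem of Thue and Mahler (starting
  library, `TH498.HF.TM`) all `r ^ e` are bounded, so `A` and `P` are bounded (`stepA`).
* `q → ∞`. Modulo the power of `r` in `P + 1` one has `q ^ (2 b + 1) = 1 - k (q - 1)` and
  `(r - 1) β q ^ c = -1`, which gives `q ^ (c - 1) ≤ 3 κ² (κ r) ^ ((2 b + 1) / c)`, `κ = 6 C` (`F_main`).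
  For bounded `b` all `r` with `c ≥ 1` tend to infinity, and `σ(N) / N` tends to `σ(A₀) / A₀ ≠ 2`,
  `A₀` the product of the components with `c = 0`, `A₀ ≤ B` (`stepB`).
* `q → ∞`, `b → ∞` (`stepC`). Then `k = 1`. If `β = 1` and `r ∤ B` then `e + 1` is a prime factor of
  `q - 1` (`prime_n`, `n_dvd`), two such `r` with the same `e` have values of `c` that differ by a factor
  `≥ 2` (`gap_c`), and modulo `r`: `q ^ c = 1`, `q ^ (2 b + 1) = 2 - q`; so either `r ∣ 2 b + 2` or a
  determinant of size at most `c 4 ^ (c - 1)` is divisible by `r` (`det_bound`), which gives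
  `q < 8 ^ e`. Together: these components have `∑ c = o(b)` (`T1a_sum`, `T1b_sum`). There are
  at most `12 C` other components with `c ≥ 1`. For these `c² ≤ (2 b + 1) (w + o(b))`, `w` the sum of the
  values of `c` of the smaller primes: by `F_main` and since `r ≤ 8 κ b q ^ (w + 1) + 1`, which
  follows from `σ(N) = 2 N` (`H_bound`). Hence `2 b = ∑ c = o(b)`, a contradiction.
-/

set_option autoImplicit false

namespace Pool.Agent.Results.MP_f02ea4_nt.LargestPrimeCubeRoot

/-- For every `C` there are only finitely many odd perfect numbers `N` that have a prime factor `P`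
with `N ≤ C P ^ 3`. -/
theorem result (C : ℕ) :
    {N : ℕ | Odd N ∧ Nat.Perfect N ∧ ∃ P : ℕ, P.Prime ∧ P ∣ N ∧ N ≤ C * P ^ 3}.Finite :=
  Pool.Agent.H628_OPN.main C

end Pool.Agent.Results.MP_f02ea4_nt.LargestPrimeCubeRoot
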