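import Pool.Agent.H628_OPN.Power

/-!
# A power saving in the bound `P < (3 N) ^ (1/3)` for the prime factors of an odd perfect number

Let `P` be a prime factor of an odd perfect number `N`. As `P ∣ σ(N)`, there is a prime `q` with
`P ∣ σ(q ^ e)`, `e = v_q(N)`. Known: `P ^ 3 < 3 N` (Acquaah, Konyagin 2012). Here:
`P ^ (3 + 1 / (2 e (e + 2))) ≤ 12 √(e + 1) N`, that is `P ^ (6 n + 1) ≤ (144 (e + 1) N ^ 2) ^ n` with
`n = e (e + 2)`.

Proof (helper files `Pool.Agent.H628_OPN.*`). If `v_P(N) ≥ 2` then `P ^ 4 ≤ 2 N`. Otherwise `σ(q ^ e) = P k`,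
`N = P q ^ e A`, `σ(A) = q ^ h B`, `q ∤ B`, and `K = k B ≤ 6 N / P ^ 3`. Let `L = e + 1` and suppose that
`q > 4 L K`. For a component `r ^ a` of `A` with `σ(r ^ a) = q ^ c β`, `c ≥ 1`, one has
`q ≤ 3 K (K + 1) (K r) ^ L`. If `P > (4 L K ^ 2) ^ (L ^ 2 - 1)` then `q > 6 K ^ 2 (4 L K ^ 2) ^ L`, hence all these
`r` exceed `4 L K`, and `σ(N) / N` is too close to `σ(A₀) / A₀`, `A₀ ≤ B` the product of the other components,
for `σ(N) / N = 2`.
-/

set_option autoImplicit false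

namespace Pool.Agent.Results.MP_f02ea4_nt.LargestPrimePowerSaving

open Pool.Agent.H628_OPN in
/-- Let `P` be a prime factor of the odd perfect number `N`. There is a prime `q ∣ N` such that `P` divides
`σ(q ^ e)`, `e = v_q(N)`, and for every such `q`, with `n = e (e + 2)`,
`P ^ (6 n + 1) ≤ (144 (e + 1) N ^ 2) ^ n`. -/
theorem result {N P : ℕ} (hodd : Odd N) (hperf : Nat.Perfect N) (hP : P.Prime) (hPN : P ∣ N) :
    (∃ q : ℕ, q.Prime ∧ q ∣ N ∧ P ∣ ∑ d ∈ (q ^ N.factorization q).divisors, d) ∧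
    ∀ q : ℕ, q.Prime → q ∣ N → P ∣ ∑ d ∈ (q ^ N.factorization q).divisors, d →
      P ^ (6 * (N.factorization q * (N.factorization q + 2)) + 1) ≤
        (144 * (N.factorization q + 1) * N ^ 2) ^
          (N.factorization q * (N.factorization q + 2)) := by
  constructor
  · have hN0 : N ≠ 0 := by rintro rfl; simp at hodd
    have h1 := (Nat.perfect_iff_sum_divisors_eq_two_mul (Nat.pos_of_ne_zero hN0)).1 hperf
    rw [Nat.sum_divisors hN0] at h1
    have h2 : P ∣ ∏ p ∈ N.primeFactors, ∑ k ∈ Finset.range (N.factorization p + 1), p ^ k := by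
      rw [h1]; exact hPN.mul_left _
    obtain ⟨q, hq, hd⟩ := (hP.prime.dvd_finsetProd_iff _).1 h2
    have hq' := Nat.mem_primeFactors.1 hq
    refine ⟨q, hq'.1, hq'.2.1, ?_⟩
    rw [Nat.sum_divisors_prime_pow hq'.1]
    exact hd
  · intro q hq hqN h
    rw [Nat.sum_divisors_prime_pow hq] at h
    exact power hodd hperf hP hPN hq hqN h

end Pool.Agent.Results.MP_f02ea4_nt.LargestPrimePowerSaving
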