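import Pool.Agent.Helper20_OPN.Exceptions

/-!
# The components `σ(q ^ a)` of an odd perfect number share prime factors

For all but at most two of the prime powers `q ^ a` dividing an odd perfect number `N` exactly, the
numbers `σ(q ^ a)` and `σ(N / q ^ a)` have a common prime factor.
-/

set_option autoImplicit false

namespace Pool.Agent.Results.MP_f02ea4_nt.SharedDivisors

open ArithmeticFunction

/-- Let `N` be an odd perfect number, and let `p` be the only prime with an odd exponent in `N`.
For at most two primes `q` dividing `N` the numbers `σ(q ^ a)` and `σ(N / q ^ a)` (`a` is the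
exponent of `q` in `N`) are coprime. If they are coprime then either `q = p`, `a = 1` and
`(p + 1) / 2` is a square, or `q ≠ p` and `σ(q ^ a)` is a square times the full power of `p` in
`N`; the latter happens for at most one `q`. -/
theorem result (N : ℕ) (hN : N.Perfect) (hodd : Odd N) :
    ∃ p ∈ N.primeFactors, (∀ q ∈ N.primeFactors, Odd (N.factorization q) ↔ q = p) ∧
      (∀ q ∈ N.primeFactors,
        Nat.Coprime (sigma 1 (q ^ N.factorization q)) (sigma 1 (N / q ^ N.factorization q)) →
          (q = p ∧ N.factorization p = 1 ∧ ∃ y, p + 1 = 2 * y ^ 2) ∨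
          (q ≠ p ∧ ∃ y, sigma 1 (q ^ N.factorization q) = p ^ N.factorization p * y ^ 2)) ∧
      {q ∈ N.primeFactors |
        Nat.Coprime (sigma 1 (q ^ N.factorization q))
          (sigma 1 (N / q ^ N.factorization q))}.card ≤ 2 ∧
      {q ∈ N.primeFactors | q ≠ p ∧
        Nat.Coprime (sigma 1 (q ^ N.factorization q))
          (sigma 1 (N / q ^ N.factorization q))}.card ≤ 1 := by
  obtain ⟨p, D⟩ := Pool.Agent.Helper20_OPN.exists_data hN hodd
  refine ⟨p, D.memp, fun q hq => D.unique_odd hq, ?_, D.few_coprime, D.few_coprime'⟩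
  intro q hq hc
  by_cases hqp : q = p
  · left
    subst hqp
    obtain ⟨y, hy⟩ := D.euler_form hc
    obtain ⟨h1, h2⟩ := D.euler_square hy
    exact ⟨rfl, h1, y, h2⟩
  · exact Or.inr ⟨hqp, D.coprime_form hq hqp hc⟩

end Pool.Agent.Results.MP_f02ea4_nt.SharedDivisors
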